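import Pool.Agent.Lib.MP_fd6c89_co.WeakSidon

/-!
# Subdivided complete graphs have distinct neighbourhoods but are not distance antimagic

A graph with `n` vertices is distance antimagic if its vertices can be labelled bijectively by
`1, ..., n` with all sums of the labels over open neighbourhoods different. For `k ≥ 38` let `G`
be obtained from the complete graph on `k` vertices by subdividing every edge once. Then `G` has
`k (k + 1) / 2` vertices and distinct open neighbourhoods, and it is not distance antimagic: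
the labels of the `k` branch vertices would have all sums of two distinct members different,
and they lie in `{1, ..., n}`.
-/

set_option autoImplicit false

namespace Pool.Agent.Results.MP_fd6c89_co.SubdividedComplete

open Pool.Agent.MP_fd6c89

open scoped Classical in
/-- The weight of `v`: the sum of the labels `f u` over all neighbours `u` of `v`. -/
noncomputable def weight {V : Type} [Fintype V] (G : SimpleGraph V) (f : V → ℕ) (v : V) : ℕ :=
  ∑ u ∈ Finset.univ.filter (fun u => G.Adj v u), f u

/-- `G` is distance antimagic: some bijection `f` from the vertices to `{1, ..., n}` has pairwise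
distinct weights. -/
def DistanceAntimagic {V : Type} [Fintype V] (G : SimpleGraph V) : Prop :=
  ∃ f : V → ℕ, Set.BijOn f Set.univ (Set.Icc 1 (Fintype.card V)) ∧
    ∀ u v : V, u ≠ v → weight G f u ≠ weight G f v

/-- Distinct vertices have distinct open neighbourhoods. -/
def DistinctNeighbourhoods {V : Type} (G : SimpleGraph V) : Prop :=
  ∀ u v : V, u ≠ v → {w | G.Adj u w} ≠ {w | G.Adj v w}

/-- Vertices of the subdivided complete graph: `k` branch vertices and one vertex for each pair
of them. -/
abbrev Vtx (k : ℕ) : Type := Fin k ⊕ {p : Fin k × Fin k // p.1 < p.2}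

/-- The complete graph on `k` vertices with every edge subdivided once: a branch vertex is
adjacent to the pairs that contain it, and there are no other edges. -/
def subdividedComplete (k : ℕ) : SimpleGraph (Vtx k) :=
  SimpleGraph.fromRel fun a b => ∃ (i : Fin k) (p : {p : Fin k × Fin k // p.1 < p.2}),
    a = Sum.inl i ∧ b = Sum.inr p ∧ (i = p.1.1 ∨ i = p.1.2)

theorem adj_iff {k : ℕ} (i : Fin k) (p : {p : Fin k × Fin k // p.1 < p.2}) :
    (subdividedComplete k).Adj (Sum.inl i) (Sum.inr p) ↔ (i = p.1.1 ∨ i = p.1.2) := by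
  unfold subdividedComplete
  rw [SimpleGraph.fromRel_adj]
  constructor
  · rintro ⟨-, ⟨j, q, h1, h2, h3⟩ | ⟨j, q, h1, h2, h3⟩⟩
    · rw [Sum.inl_injective h1, Sum.inr_injective h2]
      exact h3
    · exact absurd h1 (by simp)
  · intro h
    exact ⟨by simp, Or.inl ⟨i, p, rfl, rfl, h⟩⟩

theorem not_adj_inl {k : ℕ} (i j : Fin k) :
    ¬ (subdividedComplete k).Adj (Sum.inl i) (Sum.inl j) := by
  unfold subdividedComplete
  rw [SimpleGraph.fromRel_adj]
  rintro ⟨-, ⟨j, q, h1, h2, h3⟩ | ⟨j, q, h1, h2, h3⟩⟩
  · exact absurd h2 (by simp)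
  · exact absurd h2 (by simp)

theorem not_adj_inr {k : ℕ} (p q : {p : Fin k × Fin k // p.1 < p.2}) :
    ¬ (subdividedComplete k).Adj (Sum.inr p) (Sum.inr q) := by
  unfold subdividedComplete
  rw [SimpleGraph.fromRel_adj]
  rintro ⟨-, ⟨j, q, h1, h2, h3⟩ | ⟨j, q, h1, h2, h3⟩⟩
  · exact absurd h1 (by simp)
  · exact absurd h1 (by simp)

theorem card_pairs (k : ℕ) :
    2 * Fintype.card {p : Fin k × Fin k // p.1 < p.2} + k = k * k := by
  classical
  have h1 : Fintype.card {p : Fin k × Fin k // p.1 < p.2} =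
      Fintype.card {p : Fin k × Fin k // p.2 < p.1} :=
    Fintype.card_congr ((Equiv.prodComm (Fin k) (Fin k)).subtypeEquiv (fun p => Iff.rfl))
  have h2 : Fintype.card {p : Fin k × Fin k // p.1 = p.2} = k := by
    have e : {p : Fin k × Fin k // p.1 = p.2} ≃ Fin k :=
      { toFun := fun p => p.1.1
        invFun := fun i => ⟨(i, i), rfl⟩
        left_inv := fun p => Subtype.ext (Prod.ext rfl p.2)
        right_inv := fun i => rfl }
    exact (Fintype.card_congr e).trans (Fintype.card_fin k)
  have h3 : (Finset.univ : Finset (Fin k × Fin k)).card = k * k := by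
    rw [Finset.card_univ, Fintype.card_prod, Fintype.card_fin]
  rw [Fintype.card_subtype] at h1 h2
  rw [Fintype.card_subtype] at h1
  rw [Fintype.card_subtype]
  have h4 : (Finset.univ : Finset (Fin k × Fin k)) =
      (Finset.univ.filter (fun p : Fin k × Fin k => p.1 < p.2)) ∪
      ((Finset.univ.filter (fun p : Fin k × Fin k => p.2 < p.1)) ∪
      (Finset.univ.filter (fun p : Fin k × Fin k => p.1 = p.2))) := by
    ext p
    simp only [Finset.mem_univ, Finset.mem_union, Finset.mem_filter, true_and, true_iff]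
    rcases lt_trichotomy p.1 p.2 with h | h | h <;> tauto
  rw [h4, Finset.card_union_of_disjoint, Finset.card_union_of_disjoint] at h3
  · omega
  · rw [Finset.disjoint_left]
    intro p hp hq
    simp only [Finset.mem_filter] at hp hq
    exact absurd hq.2 (ne_of_gt hp.2)
  · rw [Finset.disjoint_left]
    intro p hp hq
    simp only [Finset.mem_filter, Finset.mem_union] at hp hq
    rcases hq with hq | hq
    · exact absurd hq.2 (lt_asymm hp.2)
    · exact absurd hq.2 (ne_of_lt hp.2)

theorem card_vtx (k : ℕ) : 2 * Fintype.card (Vtx k) = k * (k + 1) := by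
  have := card_pairs k
  rw [Fintype.card_sum, Fintype.card_fin]
  nlinarith

theorem distinct {k : ℕ} (hk : 3 ≤ k) : DistinctNeighbourhoods (subdividedComplete k) := by
  intro u v huv h
  have hh : ∀ w, (subdividedComplete k).Adj u w ↔ (subdividedComplete k).Adj v w :=
    fun w => Set.ext_iff.mp h w
  have ex : ∀ i : Fin k, ∃ p : {p : Fin k × Fin k // p.1 < p.2}, i = p.1.1 ∨ i = p.1.2 := by
    intro i
    by_cases hi : (i : ℕ) = 0
    · exact ⟨⟨(⟨0, by omega⟩, ⟨1, by omega⟩), by simp [Fin.lt_def]⟩, Or.inl (Fin.ext hi)⟩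
    · exact ⟨⟨(⟨0, by omega⟩, i), by rw [Fin.lt_def]; show 0 < (i : ℕ); omega⟩, Or.inr rfl⟩
  rcases u with i | p <;> rcases v with j | q
  · have hij : i ≠ j := fun e => huv (by rw [e])
    obtain ⟨l, hl1, hl2⟩ : ∃ l : Fin k, l ≠ i ∧ l ≠ j := by
      have : ∃ l ∈ (Finset.univ : Finset (Fin k)), l ∉ ({i, j} : Finset (Fin k)) := by
        apply Finset.exists_mem_notMem_of_card_lt_card
        rw [Finset.card_univ, Fintype.card_fin]
        exact (Finset.card_le_two).trans_lt (by omega)
      obtain ⟨l, _, hl⟩ := this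
      simp only [Finset.mem_insert, Finset.mem_singleton, not_or] at hl
      exact ⟨l, hl.1, hl.2⟩
    rcases lt_or_gt_of_ne hl1 with hl | hl
    · have := (adj_iff j _).mp ((hh (Sum.inr ⟨(l, i), hl⟩)).mp ((adj_iff i _).mpr (Or.inr rfl)))
      rcases this with e | e
      · exact hl2 e.symm
      · exact hij e.symm
    · have := (adj_iff j _).mp ((hh (Sum.inr ⟨(i, l), hl⟩)).mp ((adj_iff i _).mpr (Or.inl rfl)))
      rcases this with e | e
      · exact hij e.symm
      · exact hl2 e.symm
  · obtain ⟨p, hp⟩ := ex i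
    exact not_adj_inr _ _ ((hh (Sum.inr p)).mp ((adj_iff i p).mpr hp))
  · obtain ⟨q, hq⟩ := ex j
    exact not_adj_inr _ _ ((hh (Sum.inr q)).mpr ((adj_iff j q).mpr hq))
  · have h1 := (adj_iff _ _).mp ((hh (Sum.inl p.1.1)).mp ((adj_iff _ p).mpr (Or.inl rfl)).symm).symm
    have h2 := (adj_iff _ _).mp ((hh (Sum.inl p.1.2)).mp ((adj_iff _ p).mpr (Or.inr rfl)).symm).symm
    have hp := p.2
    have hq := q.2
    apply huv
    congr 1
    apply Subtype.ext
    rcases h1 with e1 | e1 <;> rcases h2 with e2 | e2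
    · rw [e1, e2] at hp; exact absurd hp (lt_irrefl _)
    · exact Prod.ext e1 e2
    · rw [e1, e2] at hp; exact absurd hp (lt_asymm hq)
    · rw [e1, e2] at hp; exact absurd hp (lt_irrefl _)

theorem gauss (u : ℕ) : 2 * ∑ d ∈ Finset.Ico 1 u, (u - d) = u * (u - 1) := by
  have h : ∑ d ∈ Finset.Ico 1 u, (u - d) = ∑ d ∈ Finset.range u, d := by
    rcases Nat.eq_zero_or_pos u with rfl | hu
    · simp
    · rw [Finset.range_eq_Ico, Finset.sum_eq_sum_Ico_succ_bot hu, zero_add, zero_add]
      apply Finset.sum_nbij' (fun d => u - d) (fun d => u - d)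
      · intro d hd; rw [Finset.mem_Ico] at hd ⊢; omega
      · intro d hd; rw [Finset.mem_Ico] at hd ⊢; omega
      · intro d hd; rw [Finset.mem_Ico] at hd; omega
      · intro d hd; rw [Finset.mem_Ico] at hd; omega
      · intro d hd; rfl
  rw [h, mul_comm, Finset.sum_range_id_mul_two]

/-- For every `k ≥ 38` the subdivided complete graph on `k` branch vertices has
`k (k + 1) / 2` vertices and distinct open neighbourhoods, and it is not distance antimagic. -/
theorem result (k : ℕ) (hk : 38 ≤ k) :
    Fintype.card (Vtx k) = k * (k + 1) / 2 ∧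
      DistinctNeighbourhoods (subdividedComplete k) ∧
      ¬ DistanceAntimagic (subdividedComplete k) := by
  have hcV := card_vtx k
  refine ⟨by omega, distinct (by omega), ?_⟩
  rintro ⟨f, hf, hw⟩
  classical
  set g : Fin k → ℕ := fun i => f (Sum.inl i) - 1 with hg
  have hpos : ∀ v, 1 ≤ f v ∧ f v ≤ Fintype.card (Vtx k) := fun v => by
    have := hf.mapsTo (Set.mem_univ v)
    exact Set.mem_Icc.mp this
  have finj : Function.Injective f := Set.injOn_univ.mp hf.injOn
  have ginj : Function.Injective g := by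
    intro i j h
    have h1 := hpos (Sum.inl i)
    have h2 := hpos (Sum.inl j)
    have : f (Sum.inl i) = f (Sum.inl j) := by
      simp only [hg] at h
      omega
    exact Sum.inl_injective (finj this)
  have hwt : ∀ p : {p : Fin k × Fin k // p.1 < p.2},
      weight (subdividedComplete k) f (Sum.inr p) = (g p.1.1 + 1) + (g p.1.2 + 1) := by
    intro p
    unfold weight
    have : Finset.univ.filter (fun u => (subdividedComplete k).Adj (Sum.inr p) u) =
        {Sum.inl p.1.1, Sum.inl p.1.2} := by
      ext w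
      rw [Finset.mem_filter, Finset.mem_insert, Finset.mem_singleton]
      rcases w with i | q
      · rw [SimpleGraph.adj_comm, adj_iff, Sum.inl.injEq, Sum.inl.injEq]
        simp
      · have := not_adj_inr p q
        simp [this]
    rw [this, Finset.sum_pair]
    · have h1 := hpos (Sum.inl p.1.1)
      have h2 := hpos (Sum.inl p.1.2)
      simp only [hg]
      omega
    · intro e
      have h1 := Sum.inl_injective e
      have h2 := p.2
      rw [h1] at h2
      exact lt_irrefl _ h2
  have key : ∀ i j a l : Fin k, i < j → a < l → g i + g j = g a + g l → i = a ∧ j = l := by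
    intro i j a l hij hkl e
    by_contra hne
    apply hw (Sum.inr ⟨(i, j), hij⟩) (Sum.inr ⟨(a, l), hkl⟩)
    · intro h
      have h1 := Subtype.ext_iff.mp (Sum.inr_injective h)
      exact hne ⟨(Prod.ext_iff.mp h1).1, (Prod.ext_iff.mp h1).2⟩
    · rw [hwt, hwt]
      show (g i + 1) + (g j + 1) = (g a + 1) + (g l + 1)
      omega
  have hS : WeakSidon (Finset.univ.image g) := by
    intro a ha b hb c hc d hd hab hcd e
    simp only [Finset.mem_image, Finset.mem_univ, true_and] at ha hb hc hd
    obtain ⟨i, rfl⟩ := ha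
    obtain ⟨j, rfl⟩ := hb
    obtain ⟨m, rfl⟩ := hc
    obtain ⟨l, rfl⟩ := hd
    have hij : i ≠ j := fun h => hab (by rw [h])
    have hkl : m ≠ l := fun h => hcd (by rw [h])
    rcases lt_or_gt_of_ne hij with h1 | h1 <;> rcases lt_or_gt_of_ne hkl with h2 | h2
    · obtain ⟨r1, r2⟩ := key i j m l h1 h2 e
      exact Or.inl ⟨by rw [r1], by rw [r2]⟩
    · obtain ⟨r1, r2⟩ := key i j l m h1 h2 (by omega)
      exact Or.inr ⟨by rw [r1], by rw [r2]⟩
    · obtain ⟨r1, r2⟩ := key j i m l h1 h2 (by omega)
      exact Or.inr ⟨by rw [r2], by rw [r1]⟩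
    · obtain ⟨r1, r2⟩ := key j i l m h1 h2 (by omega)
      exact Or.inl ⟨by rw [r2], by rw [r1]⟩
  have hN : ∀ a ∈ Finset.univ.image g, a < Fintype.card (Vtx k) := by
    intro a ha
    simp only [Finset.mem_image, Finset.mem_univ, true_and] at ha
    obtain ⟨i, rfl⟩ := ha
    have h1 := hpos (Sum.inl i)
    simp only [hg]
    omega
  have hcard : (Finset.univ.image g).card = k := by
    rw [Finset.card_image_of_injective _ ginj, Finset.card_univ, Fintype.card_fin]
  have hb := weakSidon_bound _ hS (Fintype.card (Vtx k)) (7 * k) hN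
  rw [hcard] at hb
  have hsum := gauss (7 * k)
  generalize Fintype.card (Vtx k) = n at hb hcV
  generalize ∑ d ∈ Finset.Ico 1 (7 * k), (7 * k - d) = s at hb hsum
  have hs : 2 * s = 49 * k * k - 7 * k := by
    rw [hsum, Nat.mul_sub]
    ring_nf
  obtain ⟨m, rfl⟩ : ∃ m, k = m + 38 := ⟨k - 38, by omega⟩
  have hs' : 2 * s + 7 * (m + 38) = 49 * (m + 38) * (m + 38) := by
    have : 7 * (m + 38) ≤ 49 * (m + 38) * (m + 38) := by nlinarith
    omega
  have hb2 : 2 * ((m + 38) * (7 * (m + 38))) ^ 2 ≤
      (2 * n + 14 * (m + 38)) * (21 * (m + 38) ^ 2 + (49 * (m + 38) ^ 2 - 7 * (m + 38))) := by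
    have e1 : 49 * (m + 38) ^ 2 - 7 * (m + 38) = 2 * s := by
      have : 49 * (m + 38) ^ 2 = 49 * (m + 38) * (m + 38) := by ring
      omega
    rw [e1]
    nlinarith
  have e2 : 49 * (m + 38) ^ 2 - 7 * (m + 38) = 49 * m ^ 2 + 3717 * m + 70490 := by
    have : 49 * (m + 38) ^ 2 = 49 * m ^ 2 + 3717 * m + 70490 + 7 * (m + 38) := by ring
    omega
  rw [e2, hcV] at hb2
  nlinarith [Nat.zero_le m, Nat.zero_le (m ^ 2), Nat.zero_le (m ^ 3), Nat.zero_le (m ^ 4)]

end Pool.Agent.Results.MP_fd6c89_co.SubdividedComplete
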